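import Pool.Agent.MZD.Half
import Pool.Agent.MZF.KstV

set_option autoImplicit false

/-!
# MZD OO: pairs of odd numbers

`q_N = ζ(N) / π^N` is rational for even `N`.  Call `(a, b)` (`a, b ≥ 3` odd) bad if
`β(a, b) = ζ(a) ζ(b) - ζ(a + b)` is algebraic.  If `(a, b)`, `(a, c)`, `(d, b)`, `(d, c)` are bad then the
product of `β(a, b) + q_(a+b) π^(a+b)` and `β(d, c) + q_(d+c) π^(d+c)` is that of the same expressions for
`(a, c)` and `(d, b)`; the coefficients of `π^(a+b+c+d)` are `q_(a+b) q_(c+d)` and `q_(a+c) q_(b+d)`, and they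
are different unless `b = c` or `a = d`.  So the graph of the bad pairs has few edges.
-/

namespace Pool.Agent.MZD

open Finset Filter
open Pool.Agent.Helper21 (mzv H zl Adm tendsto_zl)
open Pool.Agent.MZA Pool.Agent.MZA.MonAux

/-- the products `ζ(s) ζ(T - s)` -/
theorem oo_prod (N a a' : ℕ) (h2 : 2 ≤ a) (h2' : 2 ≤ a') (hN2 : a + 2 ≤ N) (hN2' : a' + 2 ≤ N)
    (heq : zl [a] * zl [N - a] = zl [a'] * zl [N - a']) : a = a' ∨ a + a' = N := by
  set P : ℕ → ℝ := fun s => zl [s] * zl [N - s] with hP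
  have hsym : ∀ s, s ≤ N → P (N - s) = P s := by
    intro s hs
    simp only [hP]
    rw [Nat.sub_sub_self hs, mul_comm]
  have hmono : ∀ s t, 2 ≤ s → s < t → 2 * t ≤ N → P t < P s := by
    intro s t hs hst ht
    have h1 := cvx s (t - s) (N - t - s) hs (by omega)
    have e1 : s + (t - s) = t := by omega
    have e2 : s + (N - t - s) = N - t := by omega
    have e3 : s + (t - s + (N - t - s)) = N - s := by omega
    rw [e1, e2, e3] at h1
    rcases Nat.eq_zero_or_pos (N - t - s) with h0 | h0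
    · omega
    · exact h1 h0
  obtain ⟨s, hs2, hsN, hsP, hsor⟩ : ∃ s, 2 ≤ s ∧ 2 * s ≤ N ∧ P s = P a ∧ (s = a ∨ s + a = N) := by
    by_cases h : 2 * a ≤ N
    · exact ⟨a, h2, h, rfl, Or.inl rfl⟩
    · exact ⟨N - a, by omega, by omega, hsym a (by omega), Or.inr (by omega)⟩
  obtain ⟨t, ht2, htN, htP, htor⟩ : ∃ s, 2 ≤ s ∧ 2 * s ≤ N ∧ P s = P a' ∧ (s = a' ∨ s + a' = N) := by
    by_cases h : 2 * a' ≤ N
    · exact ⟨a', h2', h, rfl, Or.inl rfl⟩
    · exact ⟨N - a', by omega, by omega, hsym a' (by omega), Or.inr (by omega)⟩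
  have hPa : P a = P a' := heq
  rcases lt_trichotomy s t with h | h | h
  · have := hmono s t hs2 h htN
    rw [hsP, htP, hPa] at this
    exact absurd this (lt_irrefl _)
  · omega
  · have := hmono t s ht2 h hsN
    rw [hsP, htP, hPa] at this
    exact absurd this (lt_irrefl _)

/-- a bad pair -/
def OB (a b : ℕ) : Prop := Odd a ∧ 3 ≤ a ∧ Odd b ∧ 3 ≤ b ∧ IsAlgebraic ℚ (zl [a] * zl [b] - zl [a + b])

theorem ob_symm {a b : ℕ} (h : OB a b) : OB b a := by
  obtain ⟨h1, h2, h3, h4, h5⟩ := h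
  refine ⟨h3, h4, h1, h2, ?_⟩
  rw [mul_comm (zl [b]), add_comm b]
  exact h5

/-- `ζ(a) ζ(b) = β + q π^(a+b)` -/
theorem ob_rep {a b : ℕ} (h : OB a b) : ∃ (β : algebraicClosure ℚ ℝ) (q : ℚ),
    zl [a] * zl [b] = algebraMap (algebraicClosure ℚ ℝ) ℝ β +
      algebraMap (algebraicClosure ℚ ℝ) ℝ (algebraMap ℚ _ q) * Real.pi ^ (a + b) ∧
    zl [a + b] = algebraMap (algebraicClosure ℚ ℝ) ℝ (algebraMap ℚ _ q) * Real.pi ^ (a + b) := by
  obtain ⟨⟨i, hi⟩, h2, ⟨j, hj⟩, h4, h5⟩ := h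
  obtain ⟨q, -, hq⟩ := thm_Zev (i + j + 1) (by omega)
  have e : 2 * (i + j + 1) = a + b := by omega
  rw [e] at hq
  have e1 : algebraMap (algebraicClosure ℚ ℝ) ℝ (algebraMap ℚ (algebraicClosure ℚ ℝ) q) =
      (q : ℝ) := by
    rw [← IsScalarTower.algebraMap_apply]
    rfl
  refine ⟨⟨_, mem_algebraicClosure_iff.2 h5⟩, q, ?_, ?_⟩
  · rw [e1, ← hq]
    change zl [a] * zl [b] = zl [a] * zl [b] - zl [a + b] + zl [a + b]
    ring
  · rw [e1]
    exact hq

open Polynomial in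
/-- no four-cycles -/
theorem oo_four {a b c d : ℕ} (h1 : OB a b) (h2 : OB a c) (h3 : OB d b) (h4 : OB d c) :
    a = d ∨ b = c := by
  obtain ⟨β₁, q₁, e1, f1⟩ := ob_rep h1
  obtain ⟨β₂, q₂, e2, f2⟩ := ob_rep h4
  obtain ⟨β₃, q₃, e3, f3⟩ := ob_rep h2
  obtain ⟨β₄, q₄, e4, f4⟩ := ob_rep h3
  have ha := h1.2.1
  have hb := h1.2.2.2.1
  have hc := h2.2.2.2.1
  have hd := h3.2.1
  have htr := Pool.Agent.Helper21.transcendental_pi.algebraicClosure
  set Q : ℚ → algebraicClosure ℚ ℝ := fun q => algebraMap ℚ _ q with hQ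
  set P : (algebraicClosure ℚ ℝ)[X] := (C β₁ + C (Q q₁) * X ^ (a + b)) *
    (C β₂ + C (Q q₂) * X ^ (d + c)) - (C β₃ + C (Q q₃) * X ^ (a + c)) *
    (C β₄ + C (Q q₄) * X ^ (d + b)) with hP
  have hP0 : P = 0 := by
    by_contra hne
    apply htr
    refine ⟨P, hne, ?_⟩
    rw [hP]
    simp only [map_sub, map_mul, map_add, aeval_C, aeval_X, map_pow]
    rw [← e1, ← e2, ← e3, ← e4]
    ring
  have hcoef : P.coeff (a + b + c + d) = Q q₁ * Q q₂ - Q q₃ * Q q₄ := by
    have hx : P = C (Q q₁ * Q q₂ - Q q₃ * Q q₄) * X ^ (a + b + c + d) + C (β₁ * Q q₂) * X ^ (d + c) +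
        C (β₂ * Q q₁) * X ^ (a + b) - C (β₃ * Q q₄) * X ^ (d + b) - C (β₄ * Q q₃) * X ^ (a + c) +
        C (β₁ * β₂ - β₃ * β₄) := by
      rw [hP]
      have x1 : (X : (algebraicClosure ℚ ℝ)[X]) ^ (a + b + c + d) = X ^ (a + b) * X ^ (d + c) := by
        rw [← pow_add]
        congr 1
        omega
      have x2 : (X : (algebraicClosure ℚ ℝ)[X]) ^ (a + b) * X ^ (d + c) =
          X ^ (a + c) * X ^ (d + b) := by
        rw [← pow_add, ← pow_add]
        congr 1
        omega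
      simp only [C_sub, C_mul]
      rw [x1]
      linear_combination (C (Q q₃) * C (Q q₄)) * x2
    rw [hx]
    simp only [coeff_add, coeff_sub, coeff_C_mul, coeff_X_pow, coeff_C, if_true]
    rw [if_neg (by omega), if_neg (by omega), if_neg (by omega), if_neg (by omega),
      if_neg (by omega)]
    ring
  rw [hP0, coeff_zero] at hcoef
  have hreal : algebraMap (algebraicClosure ℚ ℝ) ℝ (Q q₁) * algebraMap (algebraicClosure ℚ ℝ) ℝ (Q q₂) =
      algebraMap (algebraicClosure ℚ ℝ) ℝ (Q q₃) * algebraMap (algebraicClosure ℚ ℝ) ℝ (Q q₄) := by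
    have g0 := congrArg (algebraMap (algebraicClosure ℚ ℝ) ℝ) (sub_eq_zero.1 hcoef.symm)
    rw [map_mul, map_mul] at g0
    exact g0
  have hz : zl [a + b] * zl [a + b + c + d - (a + b)] =
      zl [a + c] * zl [a + b + c + d - (a + c)] := by
    have g1 : a + b + c + d - (a + b) = d + c := by omega
    have g2 : a + b + c + d - (a + c) = d + b := by omega
    rw [g1, g2, f1, f2, f3, f4]
    have x2 : Real.pi ^ (a + b) * Real.pi ^ (d + c) = Real.pi ^ (a + c) * Real.pi ^ (d + b) := by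
      rw [← pow_add, ← pow_add]
      congr 1
      omega
    linear_combination (Real.pi ^ (a + b) * Real.pi ^ (d + c)) * hreal +
      (algebraMap (algebraicClosure ℚ ℝ) ℝ (Q q₃) * algebraMap (algebraicClosure ℚ ℝ) ℝ (Q q₄)) * x2
  rcases oo_prod (a + b + c + d) (a + b) (a + c) (by omega) (by omega) (by omega) (by omega) hz with
    h | h
  · right
    omega
  · left
    omega

/-- the ordered bad pairs of weight at most `M` -/
def OS (M : ℕ) : Set (ℕ × ℕ) := {p | OB p.1 p.2 ∧ p.1 + p.2 ≤ M}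

theorem OS_fin (M : ℕ) : (OS M).Finite := by
  refine ((Finset.range (M + 1) ×ˢ Finset.range (M + 1)).finite_toSet).subset ?_
  rintro ⟨a, b⟩ ⟨_, h⟩
  rw [Finset.mem_coe, Finset.mem_product, Finset.mem_range, Finset.mem_range]
  simp only at h ⊢
  omega

/-- OO.  Few bad pairs. -/
theorem thm_OO (M : ℕ) : (OS M).ncard ^ 2 ≤ 2 * ((M - 4) / 2) ^ 3 := by
  classical
  set m := (M - 4) / 2 with hm
  set E : ℕ → Finset (Fin 1 → Fin m) := fun j =>
    univ.filter (fun u => OB (2 * (u 0 : ℕ) + 3) (2 * j + 3)) with hE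
  have hmem : ∀ j u, u ∈ E j ↔ OB (2 * (u 0 : ℕ) + 3) (2 * j + 3) := by
    intro j u
    rw [hE]
    simp only [mem_filter, mem_univ, true_and]
  have h1 : ∑ n ∈ Finset.range m, (E n).card ^ (2 ^ 1) ≤ (1 + 1) * m ^ (1 * 2 ^ 1) := by
    apply Pool.Agent.MZF.thm_KstV 1 m 1 (Finset.range m) E le_rfl
    · rw [card_range]
    · intro v w hvw
      rw [Set.ncard_le_one_iff (Set.Finite.subset (Finset.finite_toSet (Finset.range m))
        fun n hn => hn.1)]
      rintro i j ⟨-, hi⟩ ⟨-, hj⟩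
      have hv : ∀ n, (∀ e : Finset (Fin 1), Pool.Agent.MZF.cor v w e ∈ E n) →
          OB (2 * (v 0 : ℕ) + 3) (2 * n + 3) ∧ OB (2 * (w 0 : ℕ) + 3) (2 * n + 3) := by
        intro n hn
        have g1 := (hmem n _).1 (hn ∅)
        have g2 := (hmem n _).1 (hn univ)
        unfold Pool.Agent.MZF.cor at g1 g2
        rw [if_neg (notMem_empty _)] at g1
        rw [if_pos (mem_univ _)] at g2
        exact ⟨g1, g2⟩
      obtain ⟨a1, a2⟩ := hv i hi
      obtain ⟨b1, b2⟩ := hv j hj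
      have hlt : (v 0 : ℕ) < w 0 := hvw 0
      rcases oo_four a1 b1 a2 b2 with h | h <;> omega
  have h2 : (∑ n ∈ Finset.range m, (E n).card) ^ 2 ≤ m * ∑ n ∈ Finset.range m, (E n).card ^ 2 := by
    have := sq_sum_le_card_mul_sum_sq (s := Finset.range m) (f := fun n => (E n).card)
    simpa using this
  have h3 : (OS M).ncard ≤ ∑ n ∈ Finset.range m, (E n).card := by
    rw [← Finset.card_sigma]
    have hsub : OS M ⊆ ((((Finset.range m).sigma E).image
        (fun q : (Σ _ : ℕ, (Fin 1 → Fin m)) => (2 * (q.2 0 : ℕ) + 3, 2 * q.1 + 3)) :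
          Finset (ℕ × ℕ)) : Set (ℕ × ℕ)) := by
      rintro ⟨a, b⟩ ⟨hab, hM⟩
      simp only at hab hM
      obtain ⟨⟨i, hi⟩, ha3, ⟨j, hj⟩, hb3, -⟩ := id hab
      have hlt : (a - 3) / 2 < m := by omega
      have hlt' : (b - 3) / 2 < m := by omega
      have ea : 2 * ((a - 3) / 2) + 3 = a := by omega
      have eb : 2 * ((b - 3) / 2) + 3 = b := by omega
      rw [mem_coe, mem_image]
      refine ⟨⟨(b - 3) / 2, fun _ => ⟨(a - 3) / 2, hlt⟩⟩, ?_, ?_⟩
      · rw [mem_sigma, hmem]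
        refine ⟨Finset.mem_range.2 hlt', ?_⟩
        change OB (2 * ((a - 3) / 2) + 3) (2 * ((b - 3) / 2) + 3)
        rw [ea, eb]
        exact hab
      · change (2 * ((a - 3) / 2) + 3, 2 * ((b - 3) / 2) + 3) = (a, b)
        rw [ea, eb]
    refine (Set.ncard_le_ncard hsub (Finset.finite_toSet _)).trans ?_
    rw [Set.ncard_coe_finset]
    exact Finset.card_image_le
  rw [pow_one] at h1
  calc (OS M).ncard ^ 2 ≤ (∑ n ∈ Finset.range m, (E n).card) ^ 2 := Nat.pow_le_pow_left h3 2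
    _ ≤ m * ∑ n ∈ Finset.range m, (E n).card ^ 2 := h2
    _ ≤ m * ((1 + 1) * m ^ (1 * 2)) := Nat.mul_le_mul_left _ h1
    _ = 2 * m ^ 3 := by ring

end Pool.Agent.MZD
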