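import Pool.Agent.MZD.Half
import Pool.Agent.MZD.OO

set_option autoImplicit false

/-!
# MZD All: at least half of all double zeta values, up to `O(M ^ (3/2))`
-/

namespace Pool.Agent.MZD

open Finset Filter
open Pool.Agent.Helper21 (mzv H zl Adm tendsto_zl)
open Pool.Agent.MZA Pool.Agent.MZA.MonAux

/-- the double zeta values of weight at most `M` that are transcendental -/
def GG (M : ℕ) : Set (List ℕ) :=
  {w | w.length = 2 ∧ w.sum ≤ M ∧ w ∈ Idx w.sum ∧ Transcendental ℚ (mz w)}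

theorem idx_fin (M : ℕ) :
    {w : List ℕ | w.length = 2 ∧ w.sum ≤ M ∧ w ∈ Idx w.sum}.Finite := by
  have h1 : {w : List ℕ | w.length = 2 ∧ w.sum ≤ M ∧ w ∈ Idx w.sum} ⊆
      ⋃ N ∈ Finset.Icc 2 M, Idx N := by
    rintro w ⟨hl, hM, hw⟩
    rw [Set.mem_iUnion₂]
    refine ⟨w.sum, ?_, hw⟩
    rw [Finset.mem_Icc]
    refine ⟨?_, hM⟩
    cases w with
    | nil => simp at hl
    | cons a t =>
      have := hw.2.1 a t rfl
      rw [List.sum_cons]
      omega
  refine Set.Finite.subset ?_ h1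
  refine Set.Finite.biUnion (Finset.finite_toSet _) fun N hN => ?_
  rw [Finset.mem_coe, Finset.mem_Icc] at hN
  exact (thm_Cnt N hN.1).1

/-- the number of all indices of length `2` and weight at most `M` -/
theorem total2 (M : ℕ) : 2 * {w : List ℕ | w.length = 2 ∧ w.sum ≤ M ∧ w ∈ Idx w.sum}.ncard =
    (M - 1) * (M - 2) := by
  set K := M - 2 with hK
  have h1 : {w : List ℕ | w.length = 2 ∧ w.sum ≤ M ∧ w ∈ Idx w.sum} =
      (fun q : (Σ _ : ℕ, ℕ) => [q.2 + 2, q.1 + 1 - q.2]) ''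
        (((Finset.range K).sigma (fun i => Finset.range (i + 1)) :
          Finset (Σ _ : ℕ, ℕ)) : Set (Σ _ : ℕ, ℕ)) := by
    ext w
    constructor
    · rintro ⟨hl, hM, hw⟩
      obtain ⟨a, b, rfl⟩ := List.length_eq_two.1 hl
      have hs : [a, b].sum = a + b := by simp
      rw [hs] at hM
      have ha : 2 ≤ a := hw.2.1 a [b] rfl
      have hb : 1 ≤ b := hw.1 b (by simp)
      refine ⟨⟨a + b - 3, a - 2⟩, ?_, ?_⟩
      · rw [Finset.mem_coe, Finset.mem_sigma, Finset.mem_range, Finset.mem_range]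
        refine ⟨?_, ?_⟩
        · show a + b - 3 < K
          omega
        · show a - 2 < a + b - 3 + 1
          omega
      · show [a - 2 + 2, a + b - 3 + 1 - (a - 2)] = [a, b]
        have e1 : a - 2 + 2 = a := by omega
        have e2 : a + b - 3 + 1 - (a - 2) = b := by omega
        rw [e1, e2]
    · rintro ⟨⟨n, i⟩, hq, rfl⟩
      rw [Finset.mem_coe, Finset.mem_sigma, Finset.mem_range, Finset.mem_range] at hq
      obtain ⟨hn, hi⟩ := hq
      simp only at hn hi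
      have hs : [i + 2, n + 1 - i].sum = n + 3 := by
        simp only [List.sum_cons, List.sum_nil]
        omega
      refine ⟨rfl, ?_, ?_⟩
      · show [i + 2, n + 1 - i].sum ≤ M
        rw [hs]
        omega
      · have hadm := adm_two (i + 2) (n + 1 - i) (by omega) (by omega)
        exact ⟨hadm.1, hadm.2, rfl⟩
  rw [h1, Set.InjOn.ncard_image, Set.ncard_coe_finset, Finset.card_sigma]
  · simp only [Finset.card_range]
    have h2 : ∀ n : ℕ, 2 * ∑ i ∈ Finset.range n, (i + 1) = (n + 1) * n := by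
      intro n
      induction n with
      | zero => rfl
      | succ k ih =>
        rw [Finset.sum_range_succ, mul_add, ih]
        ring
    rw [h2]
    rcases Nat.lt_or_ge M 2 with h3 | h3
    · have : K = 0 := by omega
      rw [this, mul_zero, mul_zero]
    · have : K + 1 = M - 1 := by omega
      rw [this]
  · rintro ⟨n, i⟩ hq ⟨n', i'⟩ hq' h
    rw [Finset.mem_coe, Finset.mem_sigma, Finset.mem_range, Finset.mem_range] at hq hq'
    obtain ⟨hn, hi⟩ := hq
    obtain ⟨hn', hi'⟩ := hq'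
    simp only [List.cons.injEq, and_true] at h hn hi hn' hi'
    obtain ⟨h1, h2⟩ := h
    have e1 : i = i' := by omega
    have e2 : n = n' := by omega
    rw [e1, e2]

/-- the unordered pairs -/
def QQ (M : ℕ) : Set (ℕ × ℕ) := {p | 2 ≤ p.1 ∧ p.1 ≤ p.2 ∧ p.1 + p.2 ≤ M}

theorem QQ_fin (M : ℕ) : (QQ M).Finite := by
  refine ((Finset.range (M + 1) ×ˢ Finset.range (M + 1)).finite_toSet).subset ?_
  rintro ⟨a, b⟩ ⟨_, _, h⟩
  rw [Finset.mem_coe, Finset.mem_product, Finset.mem_range, Finset.mem_range]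
  simp only at h ⊢
  omega

theorem QQ_card (M : ℕ) : (M - 1) * (M - 3) ≤ 4 * (QQ M).ncard := by
  set K := M / 2 - 1 with hK
  have h1 : ((Finset.range K).sigma (fun i => Finset.range (M - 3 - 2 * i))).card ≤
      (QQ M).ncard := by
    rw [← Set.ncard_coe_finset]
    refine Set.ncard_le_ncard_of_injOn
      (fun q : (Σ _ : ℕ, ℕ) => (q.1 + 2, q.1 + 2 + q.2)) ?_ ?_ (QQ_fin M)
    · rintro ⟨i, j⟩ hq
      rw [Finset.mem_coe, Finset.mem_sigma, Finset.mem_range, Finset.mem_range] at hq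
      obtain ⟨hi, hj⟩ := hq
      simp only at hi hj
      show 2 ≤ i + 2 ∧ i + 2 ≤ i + 2 + j ∧ i + 2 + (i + 2 + j) ≤ M
      omega
    · rintro ⟨i, j⟩ hq ⟨i', j'⟩ hq' h
      simp only [Prod.mk.injEq] at h
      obtain ⟨h1, h2⟩ := h
      have e1 : i = i' := by omega
      have e2 : j = j' := by omega
      rw [e1, e2]
  rw [Finset.card_sigma] at h1
  simp only [Finset.card_range] at h1
  have h2 : ∀ n c : ℕ, 2 * n ≤ c + 1 →
      ∑ i ∈ Finset.range n, (c - 2 * i) + n * n = n * (c + 1) := by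
    intro n c
    induction n with
    | zero => intro _; simp
    | succ k ih =>
      intro hk
      have h3 := ih (by omega)
      rw [Finset.sum_range_succ]
      have e : c - 2 * k + 2 * k = c := by omega
      nlinarith
  rcases Nat.lt_or_ge M 3 with h3 | h3
  · have : M - 3 = 0 := by omega
    rw [this, mul_zero]
    exact Nat.zero_le _
  have h4 := h2 K (M - 3) (by omega)
  have h5 : (M - 1) * (M - 3) ≤ 4 * ∑ i ∈ Finset.range K, (M - 3 - 2 * i) := by
    rcases Nat.even_or_odd' M with ⟨c, hc | hc⟩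
    · obtain ⟨d, rfl⟩ : ∃ d, c = d + 2 := ⟨c - 2, by omega⟩
      have eK : K = d + 1 := by omega
      have e1 : M - 1 = 2 * d + 3 := by omega
      have e3 : M - 3 = 2 * d + 1 := by omega
      rw [eK, e3] at h4
      rw [eK, e1, e3]
      nlinarith
    · obtain ⟨d, rfl⟩ : ∃ d, c = d + 1 := ⟨c - 1, by omega⟩
      have eK : K = d := by omega
      have e1 : M - 1 = 2 * d + 2 := by omega
      have e3 : M - 3 = 2 * d := by omega
      rw [eK, e3] at h4
      rw [eK, e1, e3]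
      nlinarith
  exact h5.trans (Nat.mul_le_mul_left 4 h1)

/-- the bad pairs -/
def BD (M : ℕ) : Set (ℕ × ℕ) :=
  {p | p ∈ QQ M ∧ IsAlgebraic ℚ (mz [p.1, p.2]) ∧ IsAlgebraic ℚ (mz [p.2, p.1])}

theorem not_even_even (a b : ℕ) (ha : 2 ≤ a) (hb : 2 ≤ b) (ha' : Even a) (hb' : Even b)
    (h : IsAlgebraic ℚ (zl [a] * zl [b] - zl [a + b])) : False := by
  obtain ⟨i, hi⟩ := ha'
  obtain ⟨j, hj⟩ := hb'
  have ei : a = 2 * i := by omega
  have ej : b = 2 * j := by omega
  have hij : a + b = 2 * (i + j) := by omega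
  obtain ⟨q, -, hq⟩ := thm_Zev i (by omega)
  obtain ⟨r, -, hr⟩ := thm_Zev j (by omega)
  obtain ⟨s, -, hs⟩ := thm_Zev (i + j) (by omega)
  have hpos : 0 < zl [a] * zl [b] - zl [a + b] := by
    rw [stuffle a b ha hb]
    exact add_pos (main_zl_pos _ (adm_two a b ha (by omega)))
      (main_zl_pos _ (adm_two b a hb (by omega)))
  have hval : zl [a] * zl [b] - zl [a + b] = ((q * r - s : ℚ) : ℝ) * Real.pi ^ (a + b) := by
    rw [← ei] at hq
    rw [← ej] at hr
    rw [← hij] at hs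
    rw [hq, hr, hs, pow_add]
    push_cast
    ring
  rw [hval] at h hpos
  have hne : ((q * r - s : ℚ) : ℝ) ≠ 0 := by
    intro h0
    rw [h0, zero_mul] at hpos
    exact lt_irrefl _ hpos
  have h1 : IsAlgebraic ℚ ((((q * r - s : ℚ) : ℝ))⁻¹ *
      (((q * r - s : ℚ) : ℝ) * Real.pi ^ (a + b))) := by
    refine IsAlgebraic.mul ?_ h
    exact (isAlgebraic_algebraMap (R := ℚ) (A := ℝ) (q * r - s)).inv
  rw [inv_mul_cancel_left₀ hne] at h1
  exact Pool.Agent.Helper21.transcendental_pi (h1.of_pow (by omega))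

/-- the sum of the two values of a bad pair -/
theorem bd_sum {a b : ℕ} (ha : 2 ≤ a) (hb : 2 ≤ b) (h1 : IsAlgebraic ℚ (mz [a, b]))
    (h2 : IsAlgebraic ℚ (mz [b, a])) : IsAlgebraic ℚ (zl [a] * zl [b] - zl [a + b]) := by
  rw [mz_two a b ha (by omega)] at h1
  rw [mz_two b a hb (by omega)] at h2
  rw [stuffle a b ha hb]
  exact h1.add h2

theorem BD_le (M : ℕ) : (BD M).ncard ≤ (M - 4) + (OS M).ncard := by
  classical
  set B : Set (ℕ × ℕ) := {p : ℕ × ℕ | (Odd p.1 ∧ 3 ≤ p.1 ∧ Even p.2 ∧ 2 ≤ p.2 ∧ p.1 + p.2 ≤ M) ∧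
      IsAlgebraic ℚ (mz [p.1, p.2] / 1) ∧ IsAlgebraic ℚ (mz [p.2, p.1] / 1)} with hB
  have hBc : B.ncard ≤ M - 4 := thm_Dz 1 one_ne_zero M
  have hBf : B.Finite := (PP_fin M).subset fun p hp => hp.1
  set Bm : Set (ℕ × ℕ) := {p | p ∈ BD M ∧ Odd (p.1 + p.2)} with hBm
  have hm : Bm.ncard ≤ B.ncard := by
    refine Set.ncard_le_ncard_of_injOn
      (fun p : ℕ × ℕ => if Odd p.1 then (p.1, p.2) else (p.2, p.1)) ?_ ?_ hBf
    · rintro ⟨a, b⟩ ⟨⟨⟨ha2, hab, hM⟩, h1, h2⟩, hodd⟩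
      simp only at ha2 hab hM h1 h2 hodd
      show (if Odd a then (a, b) else (b, a)) ∈ B
      by_cases h : Odd a
      · rw [if_pos h]
        have hb : Even b := by
          rcases Nat.even_or_odd b with h3 | h3
          · exact h3
          · exact absurd (h.add_odd h3) (Nat.not_even_iff_odd.2 hodd)
        refine ⟨⟨h, ?_, hb, by show 2 ≤ b; omega, hM⟩, ?_, ?_⟩
        · show 3 ≤ a
          obtain ⟨c, hc⟩ := h
          omega
        · rw [div_one]
          exact h1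
        · rw [div_one]
          exact h2
      · rw [if_neg h]
        have ha : Even a := Nat.not_odd_iff_even.1 h
        have hb : Odd b := by
          rcases Nat.even_or_odd b with h3 | h3
          · exact absurd (ha.add h3) (Nat.not_even_iff_odd.2 hodd)
          · exact h3
        refine ⟨⟨hb, ?_, ha, ha2, by show b + a ≤ M; omega⟩, ?_, ?_⟩
        · show 3 ≤ b
          obtain ⟨c, hc⟩ := hb
          omega
        · rw [div_one]
          exact h2
        · rw [div_one]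
          exact h1
    · rintro ⟨a, b⟩ ⟨⟨⟨_, hab, _⟩, _⟩, hodd⟩ ⟨a', b'⟩ ⟨⟨⟨_, hab', _⟩, _⟩, hodd'⟩ h
      simp only at hab hab' hodd hodd' h
      split_ifs at h with h5 h6 h6 <;> simp only [Prod.mk.injEq] at h ⊢ <;> obtain ⟨h7, h8⟩ := h
      · exact ⟨h7, h8⟩
      · rw [h7, h8] at hab
        have h9 : a' = b' := le_antisymm hab' hab
        rw [h9] at hodd'
        obtain ⟨c, hc⟩ := hodd'
        omega
      · rw [h7, h8] at hab
        have h9 : a' = b' := le_antisymm hab' hab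
        rw [h9] at hodd'
        obtain ⟨c, hc⟩ := hodd'
        omega
      · exact ⟨h8, h7⟩
  have hsub : BD M ⊆ Bm ∪ OS M := by
    rintro ⟨a, b⟩ ⟨⟨ha2, hab, hM⟩, h1, h2⟩
    simp only at ha2 hab hM h1 h2
    have h3 := bd_sum ha2 (ha2.trans hab) h1 h2
    rcases Nat.even_or_odd a with ha | ha
    · rcases Nat.even_or_odd b with hb | hb
      · exact absurd h3 fun h => not_even_even a b ha2 (ha2.trans hab) ha hb h
      · exact Or.inl ⟨⟨⟨ha2, hab, hM⟩, h1, h2⟩, ha.add_odd hb⟩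
    · rcases Nat.even_or_odd b with hb | hb
      · exact Or.inl ⟨⟨⟨ha2, hab, hM⟩, h1, h2⟩, ha.add_even hb⟩
      · refine Or.inr ⟨⟨ha, ?_, hb, ?_, h3⟩, hM⟩
        · show 3 ≤ a
          obtain ⟨c, hc⟩ := ha
          omega
        · show 3 ≤ b
          obtain ⟨c, hc⟩ := hb
          omega
  have hBDf : (BD M).Finite := (QQ_fin M).subset fun p hp => hp.1
  have hBmf : Bm.Finite := hBDf.subset fun p hp => hp.1
  calc (BD M).ncard ≤ (Bm ∪ OS M).ncard := Set.ncard_le_ncard hsub (hBmf.union (OS_fin M))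
    _ ≤ Bm.ncard + (OS M).ncard := Set.ncard_union_le _ _
    _ ≤ (M - 4) + (OS M).ncard := Nat.add_le_add_right (hm.trans hBc) _

theorem QQ_le (M : ℕ) : (QQ M).ncard ≤ (GG M).ncard + (BD M).ncard := by
  classical
  have hGf : (GG M).Finite := (idx_fin M).subset fun w hw => ⟨hw.1, hw.2.1, hw.2.2.1⟩
  have hBQ : BD M ⊆ QQ M := fun p hp => hp.1
  have h1 : (QQ M \ BD M).ncard + (BD M).ncard = (QQ M).ncard :=
    Set.ncard_sdiff_add_ncard_of_subset hBQ (QQ_fin M)
  have h2 : (QQ M \ BD M).ncard ≤ (GG M).ncard := by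
    refine Set.ncard_le_ncard_of_injOn (fun p : ℕ × ℕ =>
      if IsAlgebraic ℚ (mz [p.1, p.2]) then [p.2, p.1] else [p.1, p.2]) ?_ ?_ hGf
    · rintro ⟨a, b⟩ ⟨⟨ha2, hab, hM⟩, hnB⟩
      simp only at ha2 hab hM
      show (if IsAlgebraic ℚ (mz [a, b]) then [b, a] else [a, b]) ∈ GG M
      by_cases h : IsAlgebraic ℚ (mz [a, b])
      · rw [if_pos h]
        have h3 : ¬ IsAlgebraic ℚ (mz [b, a]) := fun h4 => hnB ⟨⟨ha2, hab, hM⟩, h, h4⟩
        have hs : [b, a].sum = b + a := by simp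
        refine ⟨rfl, ?_, ?_, h3⟩
        · rw [hs]
          omega
        · have hadm := adm_two b a (by omega) (by omega)
          exact ⟨hadm.1, hadm.2, rfl⟩
      · rw [if_neg h]
        have hs : [a, b].sum = a + b := by simp
        refine ⟨rfl, ?_, ?_, h⟩
        · rw [hs]
          omega
        · have hadm := adm_two a b (by omega) (by omega)
          exact ⟨hadm.1, hadm.2, rfl⟩
    · rintro ⟨a, b⟩ ⟨⟨_, hab, _⟩, _⟩ ⟨a', b'⟩ ⟨⟨_, hab', _⟩, _⟩ h
      simp only at hab hab' h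
      split_ifs at h with h5 h6 h6 <;> simp only [List.cons.injEq, and_true] at h <;>
        obtain ⟨h7, h8⟩ := h <;> rw [Prod.mk.injEq] <;> omega
  omega

/-- ALL.  At least half of all double zeta values of weight at most `M`, up to `M ^ (3/2)`. -/
theorem thm_All (M : ℕ) (hM : 1 ≤ M) :
    ((M : ℝ) - 1) * ((M : ℝ) - 2) / 4 - (M : ℝ) ^ (3 / 2 : ℝ) ≤ ((GG M).ncard : ℝ) := by
  have h1 := QQ_card M
  have h2 := QQ_le M
  have h3 := BD_le M
  have h4 := thm_OO M
  set s : ℝ := Real.sqrt M with hs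
  have hs0 : 0 ≤ s := Real.sqrt_nonneg _
  have hs2 : s ^ 2 = M := Real.sq_sqrt (Nat.cast_nonneg M)
  have hpow : (M : ℝ) ^ (3 / 2 : ℝ) = s ^ 3 := by
    rw [hs, Real.sqrt_eq_rpow, ← Real.rpow_natCast ((M : ℝ) ^ (1 / 2 : ℝ)) 3,
      ← Real.rpow_mul (Nat.cast_nonneg M)]
    norm_num
  have h5 : ((OS M).ncard : ℝ) ≤ s ^ 3 / 2 := by
    have h6 : (((M - 4) / 2 : ℕ) : ℝ) ≤ M / 2 := by
      have h7 : 2 * ((M - 4) / 2) ≤ M := by omega
      have h8 : (2 : ℝ) * (((M - 4) / 2 : ℕ) : ℝ) ≤ M := by exact_mod_cast h7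
      linarith
    have h7 : ((OS M).ncard : ℝ) ^ 2 ≤ 2 * (((M - 4) / 2 : ℕ) : ℝ) ^ 3 := by exact_mod_cast h4
    have h8 : (((M - 4) / 2 : ℕ) : ℝ) ^ 3 ≤ (M / 2 : ℝ) ^ 3 :=
      pow_le_pow_left₀ (Nat.cast_nonneg _) h6 3
    have h9 : ((OS M).ncard : ℝ) ^ 2 ≤ (s ^ 3 / 2) ^ 2 := by
      have e : (s ^ 3 / 2) ^ 2 = (s ^ 2) ^ 3 / 4 := by ring
      rw [e, hs2]
      calc ((OS M).ncard : ℝ) ^ 2 ≤ 2 * (((M - 4) / 2 : ℕ) : ℝ) ^ 3 := h7
        _ ≤ 2 * (M / 2 : ℝ) ^ 3 := by linarith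
        _ = (M : ℝ) ^ 3 / 4 := by ring
    exact (pow_le_pow_iff_left₀ (Nat.cast_nonneg _) (by positivity) two_ne_zero).1 h9
  rw [hpow]
  have hG0 : (0 : ℝ) ≤ ((GG M).ncard : ℝ) := Nat.cast_nonneg _
  rcases Nat.lt_or_ge M 4 with h10 | h10
  · have h11 : (M : ℝ) ≤ 3 := by exact_mod_cast (by omega : M ≤ 3)
    have h12 : (1 : ℝ) ≤ M := by exact_mod_cast hM
    have h13 : 1 ≤ s := by
      rw [hs, Real.one_le_sqrt]
      exact h12
    have h14 : 1 ≤ s ^ 3 := one_le_pow₀ h13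
    nlinarith
  · have h11 : ((M - 1 : ℕ) : ℝ) = M - 1 := by
      rw [Nat.cast_sub (by omega)]
      norm_num
    have h12 : ((M - 3 : ℕ) : ℝ) = M - 3 := by
      rw [Nat.cast_sub (by omega)]
      norm_num
    have h13 : ((M - 4 : ℕ) : ℝ) = M - 4 := by
      rw [Nat.cast_sub (by omega)]
      norm_num
    have h14 : ((M : ℝ) - 1) * (M - 3) ≤ 4 * ((QQ M).ncard : ℝ) := by
      rw [← h11, ← h12]
      exact_mod_cast h1
    have h15 : ((QQ M).ncard : ℝ) ≤ (GG M).ncard + (BD M).ncard := by exact_mod_cast h2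
    have h16 : ((BD M).ncard : ℝ) ≤ (M - 4) + (OS M).ncard := by
      rw [← h13]
      exact_mod_cast h3
    have h17 : 5 / 4 * s ^ 2 - 17 / 4 ≤ s ^ 3 / 2 := by
      nlinarith [sq_nonneg (s - 5 / 3), mul_nonneg hs0 (sq_nonneg (s - 5 / 3))]
    rw [hs2] at h17
    nlinarith

end Pool.Agent.MZD
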