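import Mathlib

set_option autoImplicit false

/-!
# MZD Core: the graph argument

`E a N` (`a < N`) is a graph on the natural numbers, `f n` are functions with values in a field such
that `q * f n a - f n N = 0` for every edge `(a, N)` with `N ≠ n`, and for `N = n` these numbers are
different for different `a`.  Then every finite set `V` contains at most `2 |V|` edges.
-/

namespace Pool.Agent.MZD

open Finset

/-- the number of neighbours of `v` in `C` -/
noncomputable def deg (E : ℕ → ℕ → Prop) (C : Finset ℕ) (v : ℕ) : ℕ :=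
  {u : ℕ | u ∈ C ∧ (E u v ∨ E v u)}.ncard

theorem deg_fin (E : ℕ → ℕ → Prop) (C : Finset ℕ) (v : ℕ) :
    {u : ℕ | u ∈ C ∧ (E u v ∨ E v u)}.Finite :=
  (C.finite_toSet).subset fun _ h => h.1

/-- forests have leaves -/
theorem leaf {K : Type} (E : ℕ → ℕ → Prop) (hE : ∀ a N, E a N → a < N) (h : ℕ → ℕ → K) :
    ∀ (s : ℕ) (C : Finset ℕ), C.card = s → ∀ b ∈ C, 2 ≤ C.card →
    (∀ N ∈ C, ∀ a ∈ C, ∀ M ∈ C, M < N → E a M → h N a = h N M) →
    (∀ N ∈ C, ∀ a ∈ C, ∀ a' ∈ C, E a N → E a' N → h N a = h N a' → a = a') →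
    ∃ v ∈ C, v ≠ b ∧ deg E C v ≤ 1 := by
  classical
  intro s
  induction s using Nat.strong_induction_on with
  | _ s ih =>
    intro C hs b hb hC h1 h2
    have hne : C.Nonempty := ⟨b, hb⟩
    set N := C.max' hne with hN
    have hNC : N ∈ C := C.max'_mem hne
    have hle : ∀ v ∈ C, v ≤ N := fun v hv => C.le_max' v hv
    have hlt : ∀ v ∈ C, v ≠ N → v < N := fun v hv hv2 => lt_of_le_of_ne (hle v hv) hv2
    -- the class of `β`
    set cl : ℕ → Finset ℕ := fun β => (C.erase N).filter (fun v => h N v = h N β) with hcl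
    have key : ∀ β ∈ C, β ≠ N → b ∉ cl β → (E β N ∨ ∀ v ∈ cl β, ¬ E v N) →
        ∃ v ∈ C, v ≠ b ∧ deg E C v ≤ 1 := by
      intro β hβ hβN hbc hor
      have hβc : β ∈ cl β := by
        rw [hcl, Finset.mem_filter, Finset.mem_erase]
        exact ⟨⟨hβN, hβ⟩, rfl⟩
      have hsub : cl β ⊆ C := by
        intro v hv
        rw [hcl, Finset.mem_filter, Finset.mem_erase] at hv
        exact hv.1.2
      have hcN : ∀ v ∈ cl β, v ≠ N := by
        intro v hv
        rw [hcl, Finset.mem_filter, Finset.mem_erase] at hv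
        exact hv.1.1
      have hceq : ∀ v ∈ cl β, h N v = h N β := by
        intro v hv
        rw [hcl, Finset.mem_filter, Finset.mem_erase] at hv
        exact hv.2
      -- neighbours of a member of the class
      have hnb : ∀ v ∈ cl β, ∀ u ∈ C, (E u v ∨ E v u) → u ∈ cl β ∨ (u = N ∧ E v N) := by
        intro v hv u hu huv
        by_cases huN : u = N
        · right
          refine ⟨huN, ?_⟩
          rcases huv with h3 | h3
          · have h4 := hE _ _ h3
            have h5 := hlt v (hsub hv) (hcN v hv)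
            rw [huN] at h4
            omega
          · rw [huN] at h3
            exact h3
        · left
          rw [hcl, Finset.mem_filter, Finset.mem_erase]
          refine ⟨⟨huN, hu⟩, ?_⟩
          rw [← hceq v hv]
          rcases huv with h3 | h3
          · exact h1 N hNC u hu v (hsub hv) (hlt v (hsub hv) (hcN v hv)) h3
          · exact (h1 N hNC v (hsub hv) u hu (hlt u hu huN) h3).symm
      have hEN : ∀ v ∈ cl β, E v N → v = β := by
        intro v hv hvN
        rcases hor with h3 | h3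
        · exact h2 N hNC v (hsub hv) β hβ hvN h3 (hceq v hv)
        · exact absurd hvN (h3 v hv)
      by_cases hcard : (cl β).card ≤ 1
      · -- the class is `{β}`
        have h3 : ∀ v ∈ cl β, v = β := fun v hv => Finset.card_le_one.1 hcard v hv β hβc
        refine ⟨β, hβ, fun h4 => hbc (h4 ▸ hβc), ?_⟩
        have h4 : {u : ℕ | u ∈ C ∧ (E u β ∨ E β u)} ⊆ {N} := by
          rintro u ⟨hu, huv⟩
          rcases hnb β hβc u hu huv with h5 | h5
          · have h6 := h3 u h5
            rw [h6] at huv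
            rcases huv with h7 | h7 <;> exact absurd (hE _ _ h7) (lt_irrefl β)
          · exact h5.1
        exact (Set.ncard_le_ncard h4 (Set.finite_singleton N)).trans (Set.ncard_singleton N).le
      · have hlt2 : (cl β).card < s := by
          rw [← hs]
          apply Finset.card_lt_card
          rw [Finset.ssubset_iff_of_subset hsub]
          exact ⟨N, hNC, fun h3 => hcN N h3 rfl⟩
        obtain ⟨v, hv, hvβ, hdv⟩ := ih _ hlt2 (cl β) rfl β hβc (by omega)
          (fun N' hN' a ha M hM hMN' hE' => h1 N' (hsub hN') a (hsub ha) M (hsub hM) hMN' hE')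
          (fun N' hN' a ha a' ha' h3 h4 h5 => h2 N' (hsub hN') a (hsub ha) a' (hsub ha') h3 h4 h5)
        refine ⟨v, hsub hv, fun h4 => hbc (h4 ▸ hv), ?_⟩
        refine le_trans (Set.ncard_le_ncard ?_ (deg_fin E (cl β) v)) hdv
        rintro u ⟨hu, huv⟩
        refine ⟨?_, huv⟩
        rcases hnb v hv u hu huv with h5 | h5
        · exact h5
        · exact absurd (hEN v hv h5.2) hvβ
    -- choice of the class
    have hbcl : ∀ β, b ∈ cl β → b ≠ N ∧ h N b = h N β := by
      intro β hb2
      rw [hcl, Finset.mem_filter, Finset.mem_erase] at hb2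
      exact ⟨hb2.1.1, hb2.2⟩
    by_cases hbN : b = N
    · -- b = N
      by_cases hlow : ∃ β ∈ C, E β N
      · obtain ⟨β, hβ, hβN⟩ := hlow
        exact key β hβ (hE _ _ hβN).ne (fun h3 => (hbcl β h3).1 hbN) (Or.inl hβN)
      · push Not at hlow
        obtain ⟨β, hβ, hβN⟩ : ∃ β ∈ C, β ≠ N := by
          by_contra hcon
          push Not at hcon
          have : C.card ≤ 1 := Finset.card_le_one.2 fun x hx y hy => by
            rw [hcon x hx, hcon y hy]
          omega
        refine key β hβ hβN (fun h3 => (hbcl β h3).1 hbN) (Or.inr fun v hv => ?_)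
        apply hlow
        rw [hcl, Finset.mem_filter, Finset.mem_erase] at hv
        exact hv.1.2
    · by_cases hdN : deg E C N ≤ 1
      · exact ⟨N, hNC, fun h3 => hbN h3.symm, hdN⟩
      · push Not at hdN
        have h3 : 1 < ({u : ℕ | u ∈ C ∧ (E u N ∨ E N u)}).ncard := hdN
        obtain ⟨b1, hb1, b2, hb2, hb12⟩ := (Set.one_lt_ncard (deg_fin E C N)).1 h3
        have hlow : ∀ v, v ∈ {u : ℕ | u ∈ C ∧ (E u N ∨ E N u)} → v ∈ C ∧ E v N := by
          rintro v ⟨hv, h4⟩
          refine ⟨hv, ?_⟩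
          rcases h4 with h4 | h4
          · exact h4
          · exact absurd (hE _ _ h4) (not_lt.2 (hle v hv))
        obtain ⟨hb1C, hb1N⟩ := hlow b1 hb1
        obtain ⟨hb2C, hb2N⟩ := hlow b2 hb2
        by_cases h4 : b ∈ cl b1
        · refine key b2 hb2C (hE _ _ hb2N).ne (fun h5 => hb12 ?_) (Or.inl hb2N)
          exact h2 N hNC b1 hb1C b2 hb2C hb1N hb2N
            ((hbcl b1 h4).2.symm.trans (hbcl b2 h5).2)
        · exact key b1 hb1C (hE _ _ hb1N).ne h4 (Or.inl hb1N)

/-- every set has a vertex with at most two neighbours in it -/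
theorem low {K : Type} [Field K] (E : ℕ → ℕ → Prop) (hE : ∀ a N, E a N → a < N)
    (f q r : ℕ → ℕ → K) (hq : ∀ a N, E a N → q a N ≠ 0)
    (hrel : ∀ a N, E a N → ∀ n, q a N * f n a - f n N = if n = N then r a N else 0)
    (hr : ∀ a a' N, E a N → E a' N → r a N = r a' N → a = a')
    (V : Finset ℕ) (hV : V.Nonempty) : ∃ v ∈ V, deg E V v ≤ 2 := by
  classical
  by_contra hcon
  push Not at hcon
  set N := V.max' hV with hN
  have hNV : N ∈ V := V.max'_mem hV
  have hle : ∀ v ∈ V, v ≤ N := fun v hv => V.le_max' v hv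
  set C : Finset ℕ := (V.erase N).filter (fun v => f N v ≠ 0) with hC
  have hCV : C ⊆ V := by
    intro v hv
    rw [hC, Finset.mem_filter, Finset.mem_erase] at hv
    exact hv.1.2
  have hCN : ∀ v ∈ C, v ≠ N := by
    intro v hv
    rw [hC, Finset.mem_filter, Finset.mem_erase] at hv
    exact hv.1.1
  have hC0 : ∀ v ∈ C, f N v ≠ 0 := by
    intro v hv
    rw [hC, Finset.mem_filter, Finset.mem_erase] at hv
    exact hv.2
  have hoff : ∀ a M n, E a M → n ≠ M → q a M * f n a = f n M := by
    intro a M n h1 h2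
    have h3 := hrel a M h1 n
    rw [if_neg h2] at h3
    exact sub_eq_zero.1 h3
  have hon : ∀ a M, E a M → q a M * f M a = f M M + r a M := by
    intro a M h1
    have h3 := hrel a M h1 M
    rw [if_pos rfl] at h3
    rw [← h3]
    ring
  -- C is not empty
  have hCne : C.Nonempty := by
    have h3 : 1 < ({u : ℕ | u ∈ V ∧ (E u N ∨ E N u)}).ncard :=
      lt_trans (by norm_num) (hcon N hNV)
    obtain ⟨b1, hb1, b2, hb2, hb12⟩ := (Set.one_lt_ncard (deg_fin E V N)).1 h3
    have hlow : ∀ v, v ∈ {u : ℕ | u ∈ V ∧ (E u N ∨ E N u)} → v ∈ V ∧ E v N := by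
      rintro v ⟨hv, h4⟩
      refine ⟨hv, ?_⟩
      rcases h4 with h4 | h4
      · exact h4
      · exact absurd (hE _ _ h4) (not_lt.2 (hle v hv))
    obtain ⟨hb1V, hb1N⟩ := hlow b1 hb1
    obtain ⟨hb2V, hb2N⟩ := hlow b2 hb2
    have h4 : f N b1 ≠ 0 ∨ f N b2 ≠ 0 := by
      by_contra h5
      push Not at h5
      apply hb12
      apply hr b1 b2 N hb1N hb2N
      have h6 := hon b1 N hb1N
      have h7 := hon b2 N hb2N
      rw [h5.1, mul_zero] at h6
      rw [h5.2, mul_zero] at h7
      have h8 : f N N + r b1 N = f N N + r b2 N := h6.symm.trans h7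
      exact add_left_cancel h8
    rcases h4 with h4 | h4
    · exact ⟨b1, by
        rw [hC, Finset.mem_filter, Finset.mem_erase]
        exact ⟨⟨(hE _ _ hb1N).ne, hb1V⟩, h4⟩⟩
    · exact ⟨b2, by
        rw [hC, Finset.mem_filter, Finset.mem_erase]
        exact ⟨⟨(hE _ _ hb2N).ne, hb2V⟩, h4⟩⟩
  -- neighbours
  have hnb : ∀ v ∈ C, ∀ u ∈ V, (E u v ∨ E v u) → u ∈ C ∨ u = N := by
    intro v hv u hu huv
    by_cases huN : u = N
    · exact Or.inr huN
    · left
      rw [hC, Finset.mem_filter, Finset.mem_erase]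
      refine ⟨⟨huN, hu⟩, ?_⟩
      rcases huv with h3 | h3
      · have h4 := hoff u v N h3 (hCN v hv).symm
        intro h5
        rw [h5, mul_zero] at h4
        exact hC0 v hv h4.symm
      · have h4 := hoff v u N h3 (Ne.symm huN)
        rw [← h4]
        exact mul_ne_zero (hq _ _ h3) (hC0 v hv)
  have hdeg : ∀ v ∈ C, 2 ≤ deg E C v := by
    intro v hv
    have h3 := hcon v (hCV hv)
    have h4 : {u : ℕ | u ∈ V ∧ (E u v ∨ E v u)} ⊆ insert N {u : ℕ | u ∈ C ∧ (E u v ∨ E v u)} := by
      rintro u ⟨hu, huv⟩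
      rcases hnb v hv u hu huv with h5 | h5
      · exact Or.inr ⟨h5, huv⟩
      · exact Or.inl h5
    have h5 := Set.ncard_le_ncard h4 ((deg_fin E C v).insert N)
    have h6 := Set.ncard_insert_le N {u : ℕ | u ∈ C ∧ (E u v ∨ E v u)}
    unfold deg at h3 ⊢
    omega
  obtain ⟨b, hb⟩ := hCne
  have hcard : 2 ≤ C.card := by
    refine (hdeg b hb).trans ?_
    rw [← Set.ncard_coe_finset]
    exact Set.ncard_le_ncard (fun u hu => hu.1) C.finite_toSet
  obtain ⟨v, hv, _, hdv⟩ := leaf E hE (fun n v => f n v / f N v) C.card C rfl b hb hcard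
    (by
      intro n _ a ha M hM hMn haM
      have h3 := hoff a M n haM hMn.ne'
      have h4 := hoff a M N haM (hCN M hM).symm
      rw [← h3, ← h4, mul_div_mul_left _ _ (hq a M haM)])
    (by
      intro n hn a ha a' ha' han ha'n heq
      apply hr a a' n han ha'n
      have h3 := hon a n han
      have h4 := hoff a n N han (hCN n hn).symm
      have h5 := hon a' n ha'n
      have h6 := hoff a' n N ha'n (hCN n hn).symm
      have h7 : (f n n + r a n) / f N n = f n a / f N a := by
        rw [← h3, ← h4, mul_div_mul_left _ _ (hq a n han)]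
      have h8 : (f n n + r a' n) / f N n = f n a' / f N a' := by
        rw [← h5, ← h6, mul_div_mul_left _ _ (hq a' n ha'n)]
      have h9 : (f n n + r a n) / f N n = (f n n + r a' n) / f N n := h7.trans (heq.trans h8.symm)
      rw [div_left_inj' (hC0 n hn)] at h9
      exact add_left_cancel h9)
  have := hdeg v hv
  omega

/-- the edges in `V` -/
def edg (E : ℕ → ℕ → Prop) (V : Finset ℕ) : Set (ℕ × ℕ) :=
  {p | p.1 ∈ V ∧ p.2 ∈ V ∧ E p.1 p.2}

theorem edg_fin (E : ℕ → ℕ → Prop) (V : Finset ℕ) : (edg E V).Finite :=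
  ((V ×ˢ V).finite_toSet).subset fun p hp => by
    rw [Finset.mem_coe, Finset.mem_product]
    exact ⟨hp.1, hp.2.1⟩

/-- the edges through `v` -/
theorem edg_star (E : ℕ → ℕ → Prop) (hE : ∀ a N, E a N → a < N) (V : Finset ℕ) (v : ℕ) :
    (edg E V).ncard ≤ (edg E (V.erase v)).ncard + deg E V v := by
  classical
  have h1 : edg E V ⊆ edg E (V.erase v) ∪ {p | p ∈ edg E V ∧ (p.1 = v ∨ p.2 = v)} := by
    rintro p hp
    by_cases h2 : p.1 = v ∨ p.2 = v
    · exact Or.inr ⟨hp, h2⟩
    · push Not at h2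
      exact Or.inl ⟨Finset.mem_erase.2 ⟨h2.1, hp.1⟩, Finset.mem_erase.2 ⟨h2.2, hp.2.1⟩, hp.2.2⟩
  have hf : {p | p ∈ edg E V ∧ (p.1 = v ∨ p.2 = v)}.Finite := (edg_fin E V).subset fun p hp => hp.1
  have h2 := (Set.ncard_le_ncard h1 ((edg_fin E _).union hf)).trans (Set.ncard_union_le _ _)
  refine h2.trans (Nat.add_le_add_left ?_ _)
  unfold deg
  apply Set.ncard_le_ncard_of_injOn (fun p : ℕ × ℕ => if p.1 = v then p.2 else p.1)
  · rintro ⟨a, N⟩ ⟨⟨ha, hN, haN⟩, h3⟩
    simp only at ha hN haN h3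
    show (if a = v then N else a) ∈ {u : ℕ | u ∈ V ∧ (E u v ∨ E v u)}
    by_cases h4 : a = v
    · rw [if_pos h4]
      exact ⟨hN, Or.inr (h4 ▸ haN)⟩
    · rw [if_neg h4]
      rcases h3 with h3 | h3
      · exact absurd h3 h4
      · exact ⟨ha, Or.inl (h3 ▸ haN)⟩
  · rintro ⟨a, N⟩ ⟨⟨ha, hN, haN⟩, h3⟩ ⟨a', N'⟩ ⟨⟨ha', hN', haN'⟩, h3'⟩ h5
    simp only at ha hN haN h3 ha' hN' haN' h3' h5
    have e1 := hE _ _ haN
    have e2 := hE _ _ haN'
    by_cases h4 : a = v
    · rw [if_pos h4] at h5
      by_cases h4' : a' = v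
      · rw [if_pos h4'] at h5
        rw [h4, h4', h5]
      · rw [if_neg h4'] at h5
        rcases h3' with h3' | h3'
        · exact absurd h3' h4'
        · omega
    · rw [if_neg h4] at h5
      rcases h3 with h3 | h3
      · exact absurd h3 h4
      · by_cases h4' : a' = v
        · rw [if_pos h4'] at h5
          omega
        · rw [if_neg h4'] at h5
          rcases h3' with h3' | h3'
          · exact absurd h3' h4'
          · rw [h3, h3', h5]

theorem count {K : Type} [Field K] (E : ℕ → ℕ → Prop) (hE : ∀ a N, E a N → a < N)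
    (f q r : ℕ → ℕ → K) (hq : ∀ a N, E a N → q a N ≠ 0)
    (hrel : ∀ a N, E a N → ∀ n, q a N * f n a - f n N = if n = N then r a N else 0)
    (hr : ∀ a a' N, E a N → E a' N → r a N = r a' N → a = a') :
    ∀ (s : ℕ) (V : Finset ℕ), V.card = s → (edg E V).ncard ≤ 2 * s - 3 := by
  classical
  intro s
  induction s with
  | zero =>
    intro V hV
    rw [Finset.card_eq_zero] at hV
    subst hV
    have : edg E ∅ = ∅ := by
      ext p
      simp [edg]
    rw [this, Set.ncard_empty]
  | succ s ih =>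
    intro V hV
    obtain ⟨v, hv, hd⟩ := low E hE f q r hq hrel hr V (Finset.card_pos.1 (by omega))
    have h1 := edg_star E hE V v
    have h2 := ih (V.erase v) (by rw [Finset.card_erase_of_mem hv, hV]; rfl)
    have h3 : deg E V v ≤ s := by
      have h4 : {u : ℕ | u ∈ V ∧ (E u v ∨ E v u)} ⊆ ((V.erase v : Finset ℕ) : Set ℕ) := by
        rintro u ⟨hu, huv⟩
        rw [Finset.mem_coe, Finset.mem_erase]
        refine ⟨?_, hu⟩
        rintro rfl
        rcases huv with h5 | h5 <;> exact absurd (hE _ _ h5) (lt_irrefl _)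
      have h5 := Set.ncard_le_ncard h4 (V.erase v).finite_toSet
      rw [Set.ncard_coe_finset, Finset.card_erase_of_mem hv, hV] at h5
      exact h5
    omega

end Pool.Agent.MZD
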