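import Mathlib
import Pool.Agent.MZD.Core
import Pool.Agent.MZA.Zev
import Pool.Agent.MZA.Stf
import Pool.Agent.MZA.Mon
import Pool.Agent.MZA.Tup

set_option autoImplicit false

/-!
# MZD Dz: double zeta values of odd weight

For every real `x ≠ 0` at most `M - 4` of the pairs `(a, b)`, `a ≥ 3` odd, `b ≥ 2` even,
`a + b ≤ M`, are such that `ζ(a, b)` and `ζ(b, a)` are both in `A x`, where `A` is the field of the
real algebraic numbers.
-/

namespace Pool.Agent.MZD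

open Finset Filter
open Pool.Agent.Helper21 (mzv H zl Adm tendsto_zl)
open Pool.Agent.MZA Pool.Agent.MZA.MonAux

/-- truncated form of the inequality -/
theorem cvx_fin (x i k n : ℕ) (hn : 2 ≤ n) :
    (1 / 2) * (ee 1 ^ x * ((1 - ee 1 ^ i) * (1 - ee 1 ^ k))) ≤
      H [x] n * H [x + (i + k)] n - H [x + i] n * H [x + k] n := by
  set F : ℕ → ℕ → ℝ := fun l m => ee l ^ x * ee m ^ (x + (i + k)) - ee l ^ (x + i) * ee m ^ (x + k)
    with hF
  have h1 : H [x] n * H [x + (i + k)] n - H [x + i] n * H [x + k] n =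
      ∑ l ∈ range n, ∑ m ∈ range n, F l m := by
    rw [H_single, H_single, H_single, H_single, Finset.sum_mul_sum, Finset.sum_mul_sum,
      ← Finset.sum_sub_distrib]
    apply Finset.sum_congr rfl
    intro l _
    rw [← Finset.sum_sub_distrib]
  have h2 : H [x] n * H [x + (i + k)] n - H [x + i] n * H [x + k] n =
      ∑ l ∈ range n, ∑ m ∈ range n, F m l := by
    rw [h1, Finset.sum_comm]
  have h3 : ∀ l m, F l m + F m l = ee l ^ x * ee m ^ x * ((ee l ^ i - ee m ^ i) *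
      (ee l ^ k - ee m ^ k)) := by
    intro l m
    rw [hF]
    simp only [pow_add]
    ring
  have hdec : ∀ (l m j : ℕ), l ≤ m → ee m ^ j ≤ ee l ^ j := fun l m j hlm =>
    pow_le_pow_left₀ (ee_pos m).le (ee_anti hlm) j
  have h4 : ∀ l m, 0 ≤ F l m + F m l := by
    intro l m
    rw [h3]
    have h5 := (pow_pos (ee_pos l) x).le
    have h6 := (pow_pos (ee_pos m) x).le
    apply mul_nonneg (mul_nonneg h5 h6)
    rcases le_total l m with h | h
    · exact mul_nonneg (sub_nonneg.2 (hdec l m i h)) (sub_nonneg.2 (hdec l m k h))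
    · exact mul_nonneg_of_nonpos_of_nonpos (sub_nonpos.2 (hdec m l i h))
        (sub_nonpos.2 (hdec m l k h))
  have h5 : 2 * (H [x] n * H [x + (i + k)] n - H [x + i] n * H [x + k] n) =
      ∑ l ∈ range n, ∑ m ∈ range n, (F l m + F m l) := by
    rw [two_mul]
    nth_rw 1 [h1]
    rw [h2, ← Finset.sum_add_distrib]
    apply Finset.sum_congr rfl
    intro l _
    rw [← Finset.sum_add_distrib]
  have h6 : F 0 1 + F 1 0 ≤ ∑ l ∈ range n, ∑ m ∈ range n, (F l m + F m l) := by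
    have h7 : F 0 1 + F 1 0 ≤ ∑ m ∈ range n, (F 0 m + F m 0) :=
      Finset.single_le_sum (f := fun m => F 0 m + F m 0) (fun m _ => h4 0 m)
        (Finset.mem_range.2 (by omega : 1 < n))
    exact h7.trans (Finset.single_le_sum (f := fun l => ∑ m ∈ range n, (F l m + F m l))
      (fun l _ => Finset.sum_nonneg fun m _ => h4 l m) (Finset.mem_range.2 (by omega : 0 < n)))
  rw [h3, ee_zero, one_pow, one_pow, one_pow, one_mul] at h6
  linarith

/-- strict convexity -/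
theorem cvx (x i k : ℕ) (hx : 2 ≤ x) (hi : 0 < i) (hk : 0 < k) :
    zl [x + i] * zl [x + k] < zl [x] * zl [x + (i + k)] := by
  have t1 := tendsto_zl [x] (adm_single x hx)
  have t2 := tendsto_zl [x + (i + k)] (adm_single _ (by omega))
  have t3 := tendsto_zl [x + i] (adm_single _ (by omega))
  have t4 := tendsto_zl [x + k] (adm_single _ (by omega))
  have t5 := (t1.mul t2).sub (t3.mul t4)
  have h1 : (1 / 2) * (ee 1 ^ x * ((1 - ee 1 ^ i) * (1 - ee 1 ^ k))) ≤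
      zl [x] * zl [x + (i + k)] - zl [x + i] * zl [x + k] := by
    apply ge_of_tendsto t5
    filter_upwards [eventually_ge_atTop 2] with n hn
    exact cvx_fin x i k n hn
  have h2 : ∀ j : ℕ, 0 < j → 0 < 1 - ee 1 ^ j := by
    intro j hj
    have := pow_lt_one₀ (ee_pos 1).le ee_one_lt hj.ne'
    linarith
  have h3 : 0 < (1 / 2) * (ee 1 ^ x * ((1 - ee 1 ^ i) * (1 - ee 1 ^ k))) := by
    have := h2 i hi
    have := h2 k hk
    have := pow_pos (ee_pos 1) x
    positivity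
  linarith

/-- the products are different -/
theorem prod_ne (N a a' : ℕ) (hN : Odd N) (ha : Odd a) (ha' : Odd a') (h2 : 2 ≤ a) (h2' : 2 ≤ a')
    (hN2 : a + 2 ≤ N) (hN2' : a' + 2 ≤ N)
    (heq : zl [a] * zl [N - a] = zl [a'] * zl [N - a']) : a = a' := by
  set P : ℕ → ℝ := fun s => zl [s] * zl [N - s] with hP
  have hsym : ∀ s, s ≤ N → P (N - s) = P s := by
    intro s hs
    simp only [hP]
    rw [Nat.sub_sub_self hs, mul_comm]
  have hmono : ∀ s t, 2 ≤ s → s < t → 2 * t ≤ N → P t < P s := by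
    intro s t hs hst ht
    have h1 := cvx s (t - s) (N - t - s) hs (by omega) (by omega)
    have e1 : s + (t - s) = t := by omega
    have e2 : s + (N - t - s) = N - t := by omega
    have e3 : s + (t - s + (N - t - s)) = N - s := by omega
    rw [e1, e2, e3] at h1
    exact h1
  obtain ⟨s, hs2, hsN, hsP, hsor⟩ : ∃ s, 2 ≤ s ∧ 2 * s ≤ N ∧ P s = P a ∧ (s = a ∨ s + a = N) := by
    by_cases h : 2 * a ≤ N
    · exact ⟨a, h2, h, rfl, Or.inl rfl⟩
    · exact ⟨N - a, by omega, by omega, hsym a (by omega), Or.inr (by omega)⟩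
  obtain ⟨t, ht2, htN, htP, htor⟩ : ∃ s, 2 ≤ s ∧ 2 * s ≤ N ∧ P s = P a' ∧ (s = a' ∨ s + a' = N) := by
    by_cases h : 2 * a' ≤ N
    · exact ⟨a', h2', h, rfl, Or.inl rfl⟩
    · exact ⟨N - a', by omega, by omega, hsym a' (by omega), Or.inr (by omega)⟩
  have hPa : P a = P a' := heq
  rcases lt_trichotomy s t with h | h | h
  · have := hmono s t hs2 h htN
    rw [hsP, htP, hPa] at this
    exact absurd this (lt_irrefl _)
  · obtain ⟨n, hn⟩ := hN
    obtain ⟨m, hm⟩ := ha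
    obtain ⟨m', hm'⟩ := ha'
    omega
  · have := hmono t s ht2 h hsN
    rw [hsP, htP, hPa] at this
    exact absurd this (lt_irrefl _)

/-- powers of a transcendental number, times `x` -/
theorem indep (x y : ℝ) (hx : x ≠ 0) (hy : Transcendental (algebraicClosure ℚ ℝ) y) :
    LinearIndependent (algebraicClosure ℚ ℝ) (fun i : ℕ => x * y ^ i) := by
  rw [linearIndependent_iff']
  intro s g hg i hi
  obtain ⟨D, hD⟩ : ∃ D, s ⊆ Finset.range (D + 1) := by
    refine ⟨s.sup id, fun j hj => ?_⟩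
    rw [Finset.mem_range]
    exact Nat.lt_succ_of_le (Finset.le_sup (f := id) hj)
  set c : ℕ → algebraicClosure ℚ ℝ := fun j => if j ∈ s then g j else 0 with hc
  have h0 : x * ∑ j ∈ s, algebraMap (algebraicClosure ℚ ℝ) ℝ (g j) * y ^ j = 0 := by
    rw [← hg, Finset.mul_sum]
    apply Finset.sum_congr rfl
    intro j _
    rw [Algebra.smul_def]
    ring
  have h1 : ∑ j ∈ Finset.range (D + 1), algebraMap (algebraicClosure ℚ ℝ) ℝ (c j) * y ^ j =
      0 := by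
    rcases mul_eq_zero.1 h0 with h2 | h2
    · exact absurd h2 hx
    · rw [← h2, ← Finset.sum_subset hD]
      · apply Finset.sum_congr rfl
        intro j hj
        rw [hc]
        simp only [if_pos hj]
      · intro j _ hj
        rw [hc]
        simp only [if_neg hj]
        rw [map_zero, zero_mul]
  have h2 := Pool.Agent.Helper21.pow_comb_eq_zero hy D c h1 i
    (Nat.lt_succ_iff.1 (Finset.mem_range.1 (hD hi)))
  rw [hc] at h2
  simpa only [if_pos hi] using h2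

/-- coordinates -/
theorem coord (x y : ℝ) (hx : x ≠ 0) (hy : Transcendental (algebraicClosure ℚ ℝ) y) :
    ∃ g : ℝ →ₗ[algebraicClosure ℚ ℝ] (ℕ →₀ algebraicClosure ℚ ℝ),
      ∀ i : ℕ, g (x * y ^ i) = Finsupp.single i 1 := by
  have h := indep x y hx hy
  obtain ⟨g, hg⟩ := LinearMap.exists_extend (h.repr : _ →ₗ[algebraicClosure ℚ ℝ] _)
  refine ⟨g, fun i => ?_⟩
  have hmem : x * y ^ i ∈ Submodule.span (algebraicClosure ℚ ℝ)
      (Set.range (fun i : ℕ => x * y ^ i)) := Submodule.subset_span ⟨i, rfl⟩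
  have h1 := LinearMap.congr_fun hg ⟨x * y ^ i, hmem⟩
  have h2 : g (x * y ^ i) = h.repr ⟨x * y ^ i, hmem⟩ := h1
  rw [h2]
  exact h.repr_eq_single i ⟨x * y ^ i, hmem⟩ rfl

/-- the graph: `(ζ(a) ζ(N - a) - ζ(N)) / x` is algebraic -/
def EE (x : ℝ) (a N : ℕ) : Prop :=
  Odd a ∧ Odd N ∧ 3 ≤ a ∧ a + 2 ≤ N ∧ IsAlgebraic ℚ ((zl [a] * zl [N - a] - zl [N]) / x)

/-- the odd numbers in `[3, M]` -/
def VV (M : ℕ) : Finset ℕ := (Finset.Icc 1 ((M - 1) / 2)).image (fun j => 2 * j + 1)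

theorem VV_card (M : ℕ) : (VV M).card ≤ (M - 1) / 2 := by
  refine Finset.card_image_le.trans ?_
  rw [Nat.card_Icc]
  omega

theorem VV_mem (M a : ℕ) (ha : Odd a) (h3 : 3 ≤ a) (hM : a ≤ M) : a ∈ VV M := by
  obtain ⟨j, rfl⟩ := ha
  unfold VV
  rw [Finset.mem_image]
  exact ⟨j, Finset.mem_Icc.2 ⟨by omega, by omega⟩, rfl⟩

theorem pi_inv_trans : Transcendental (algebraicClosure ℚ ℝ) Real.pi⁻¹ := by
  intro h
  exact Pool.Agent.Helper21.transcendental_pi.algebraicClosure (by simpa using h.inv)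

open Classical in
theorem edgesV (x : ℝ) (hx : x ≠ 0) (V : Finset ℕ) : (edg (EE x) V).ncard ≤ 2 * V.card - 3 := by
  have hz := thm_Zev
  have hQ : ∀ j : ℕ, ∃ q : ℚ, 1 ≤ j → 0 < q ∧ zl [2 * j] = q * Real.pi ^ (2 * j) := by
    intro j
    by_cases hj : 1 ≤ j
    · obtain ⟨q, hq⟩ := hz j hj
      exact ⟨q, fun _ => hq⟩
    · exact ⟨0, fun h => absurd h hj⟩
  choose Q hQ using hQ
  obtain ⟨g, hg⟩ := coord x Real.pi⁻¹ hx pi_inv_trans
  set f : ℕ → ℕ → algebraicClosure ℚ ℝ := fun n v => g (zl [v] * Real.pi⁻¹ ^ v) n with hf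
  set q : ℕ → ℕ → algebraicClosure ℚ ℝ := fun a N => algebraMap ℚ _ (Q ((N - a) / 2)) with hq
  set r : ℕ → ℕ → algebraicClosure ℚ ℝ := fun a N =>
    if h : IsAlgebraic ℚ ((zl [a] * zl [N - a] - zl [N]) / x) then
      ⟨(zl [a] * zl [N - a] - zl [N]) / x, mem_algebraicClosure_iff.2 h⟩ else 0 with hr
  have hrE : ∀ a N, EE x a N → algebraMap (algebraicClosure ℚ ℝ) ℝ (r a N) =
      (zl [a] * zl [N - a] - zl [N]) / x := by
    intro a N h
    simp only [hr]
    rw [dif_pos h.2.2.2.2]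
    rfl
  have hE : ∀ a N, EE x a N → a < N := fun a N h => by have := h.2.2.2.1; omega
  have hhalf : ∀ a N, EE x a N → 1 ≤ (N - a) / 2 ∧ 2 * ((N - a) / 2) = N - a := by
    rintro a N ⟨⟨i, hi⟩, ⟨j, hj⟩, h3, h4, -⟩
    omega
  have hq0 : ∀ a N, EE x a N → q a N ≠ 0 := by
    intro a N h
    have h1 := (hQ _ (hhalf a N h).1).1
    simp only [hq]
    rw [Ne, map_eq_zero]
    exact h1.ne'
  have hrel : ∀ a N, EE x a N → ∀ n, q a N * f n a - f n N = if n = N then r a N else 0 := by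
    intro a N h n
    have h1 := hQ _ (hhalf a N h).1
    rw [(hhalf a N h).2] at h1
    have h2 : q a N • (zl [a] * Real.pi⁻¹ ^ a) - zl [N] * Real.pi⁻¹ ^ N =
        r a N • (x * Real.pi⁻¹ ^ N) := by
      rw [Algebra.smul_def, Algebra.smul_def, hrE a N h]
      have e1 : algebraMap (algebraicClosure ℚ ℝ) ℝ (q a N) = (Q ((N - a) / 2) : ℝ) := by
        simp only [hq]
        rw [← IsScalarTower.algebraMap_apply]
        rfl
      have e2 : Real.pi⁻¹ ^ N = Real.pi⁻¹ ^ a * Real.pi⁻¹ ^ (N - a) := by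
        rw [← pow_add]
        congr 1
        have := hE a N h
        omega
      have e3 : Real.pi ^ (N - a) * Real.pi⁻¹ ^ (N - a) = 1 := by
        rw [← mul_pow, mul_inv_cancel₀ Real.pi_ne_zero, one_pow]
      rw [e1, h1.2]
      have e4 : (zl [a] * (↑(Q ((N - a) / 2)) * Real.pi ^ (N - a)) - zl [N]) / x *
          (x * Real.pi⁻¹ ^ N) = (zl [a] * (↑(Q ((N - a) / 2)) * Real.pi ^ (N - a)) - zl [N]) *
          Real.pi⁻¹ ^ N := by
        field_simp
      rw [e4, sub_mul]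
      congr 1
      rw [e2]
      calc (↑(Q ((N - a) / 2)) : ℝ) * (zl [a] * Real.pi⁻¹ ^ a)
          = (↑(Q ((N - a) / 2)) : ℝ) * (zl [a] * Real.pi⁻¹ ^ a) *
            (Real.pi ^ (N - a) * Real.pi⁻¹ ^ (N - a)) := by rw [e3, mul_one]
        _ = _ := by ring
    have h3 := congrArg (fun z => (g z) n) h2
    simp only [map_sub, map_smul, hg, Finsupp.sub_apply, Finsupp.smul_apply, smul_eq_mul,
      Finsupp.single_apply] at h3
    simp only [hf]
    rw [h3]
    by_cases h4 : n = N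
    · rw [if_pos h4.symm, if_pos h4, mul_one]
    · rw [if_neg (Ne.symm h4), if_neg h4, mul_zero]
  have hrne : ∀ a a' N, EE x a N → EE x a' N → r a N = r a' N → a = a' := by
    intro a a' N h h' heq
    have h1 := congrArg (algebraMap (algebraicClosure ℚ ℝ) ℝ) heq
    rw [hrE a N h, hrE a' N h', div_left_inj' hx] at h1
    have h2 : zl [a] * zl [N - a] = zl [a'] * zl [N - a'] := by linarith
    have h3 := h.2.2.1
    have h4 := h'.2.2.1
    exact prod_ne N a a' h.2.1 h.1 h'.1 (by omega) (by omega) h.2.2.2.1 h'.2.2.2.1 h2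
  exact count (EE x) hE f q r hq0 hrel hrne V.card V rfl

theorem edges (x : ℝ) (hx : x ≠ 0) (M : ℕ) : (edg (EE x) (VV M)).ncard ≤ M - 4 := by
  have h1 := edgesV x hx (VV M)
  have h2 := VV_card M
  omega

/-- the pairs with `ζ(a) ζ(b) - ζ(a + b) = ζ(a, b) + ζ(b, a)` in `A x` -/
theorem dz_sum (x : ℝ) (hx : x ≠ 0) (M : ℕ) :
    {p : ℕ × ℕ | (Odd p.1 ∧ 3 ≤ p.1 ∧ Even p.2 ∧ 2 ≤ p.2 ∧ p.1 + p.2 ≤ M) ∧
      IsAlgebraic ℚ ((zl [p.1] * zl [p.2] - zl [p.1 + p.2]) / x)}.Finite ∧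
    {p : ℕ × ℕ | (Odd p.1 ∧ 3 ≤ p.1 ∧ Even p.2 ∧ 2 ≤ p.2 ∧ p.1 + p.2 ≤ M) ∧
      IsAlgebraic ℚ ((zl [p.1] * zl [p.2] - zl [p.1 + p.2]) / x)}.ncard ≤ M - 4 := by
  have hmaps : ∀ p ∈ {p : ℕ × ℕ | (Odd p.1 ∧ 3 ≤ p.1 ∧ Even p.2 ∧ 2 ≤ p.2 ∧ p.1 + p.2 ≤ M) ∧
      IsAlgebraic ℚ ((zl [p.1] * zl [p.2] - zl [p.1 + p.2]) / x)},
      (fun p : ℕ × ℕ => (p.1, p.1 + p.2)) p ∈ edg (EE x) (VV M) := by
    rintro ⟨a, b⟩ ⟨⟨ha, h3, hb, h2, hM⟩, halg⟩
    simp only at ha h3 hb h2 hM halg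
    show (a, a + b) ∈ edg (EE x) (VV M)
    have haM : a ≤ M := by omega
    have hab : 3 ≤ a + b := by omega
    refine ⟨VV_mem M a ha h3 haM, VV_mem M (a + b) (ha.add_even hb) hab hM, ha,
      ha.add_even hb, h3, by omega, ?_⟩
    show IsAlgebraic ℚ ((zl [a] * zl [a + b - a] - zl [a + b]) / x)
    rw [Nat.add_sub_cancel_left]
    exact halg
  have hinj : Set.InjOn (fun p : ℕ × ℕ => (p.1, p.1 + p.2))
      {p : ℕ × ℕ | (Odd p.1 ∧ 3 ≤ p.1 ∧ Even p.2 ∧ 2 ≤ p.2 ∧ p.1 + p.2 ≤ M) ∧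
      IsAlgebraic ℚ ((zl [p.1] * zl [p.2] - zl [p.1 + p.2]) / x)} := by
    rintro ⟨a, b⟩ _ ⟨a', b'⟩ _ h
    simp only [Prod.mk.injEq] at h ⊢
    omega
  exact ⟨Set.Finite.of_injOn hmaps hinj (edg_fin _ _),
    (Set.ncard_le_ncard_of_injOn _ hmaps hinj (edg_fin _ _)).trans (edges x hx M)⟩

/-- the stuffle product of two zeta values -/
theorem stuffle (a b : ℕ) (ha : 2 ≤ a) (hb : 2 ≤ b) :
    zl [a] * zl [b] - zl [a + b] = zl [a, b] + zl [b, a] := by
  have h := (thm_Stf b [a] hb (adm_single a ha)).1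
  have e : ((st b [a]).map zl).sum = zl [b, a] + (zl [a + b] + (zl [a, b] + 0)) := rfl
  rw [e] at h
  linarith

/-- DZ.  The pairs with `ζ(a, b)` and `ζ(b, a)` in `A x`. -/
theorem thm_Dz (x : ℝ) (hx : x ≠ 0) (M : ℕ) :
    {p : ℕ × ℕ | (Odd p.1 ∧ 3 ≤ p.1 ∧ Even p.2 ∧ 2 ≤ p.2 ∧ p.1 + p.2 ≤ M) ∧
      IsAlgebraic ℚ (mz [p.1, p.2] / x) ∧ IsAlgebraic ℚ (mz [p.2, p.1] / x)}.ncard ≤ M - 4 := by
  refine (Set.ncard_le_ncard ?_ (dz_sum x hx M).1).trans (dz_sum x hx M).2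
  rintro ⟨a, b⟩ ⟨⟨ha, h3, hb, h2, hM⟩, h4, h5⟩
  simp only at ha h3 hb h2 hM h4 h5
  refine ⟨⟨ha, h3, hb, h2, hM⟩, ?_⟩
  show IsAlgebraic ℚ ((zl [a] * zl [b] - zl [a + b]) / x)
  have hadm : Adm [a, b] := ⟨by
    intro c hc
    simp only [List.mem_cons, List.not_mem_nil, or_false] at hc
    omega, by
    intro c t hc
    have := (List.cons.inj hc).1
    omega⟩
  have hadm' : Adm [b, a] := ⟨by
    intro c hc
    simp only [List.mem_cons, List.not_mem_nil, or_false] at hc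
    omega, by
    intro c t hc
    have := (List.cons.inj hc).1
    omega⟩
  unfold mz at h4 h5
  rw [main_mzv [a, b] hadm] at h4
  rw [main_mzv [b, a] hadm'] at h5
  rw [stuffle a b (by omega) h2, add_div]
  exact h4.add h5

end Pool.Agent.MZD
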