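import Mathlib
import Pool.Agent.MZD.Dz
import Pool.Agent.MZA.Cnt

set_option autoImplicit false

/-!
# MZD Half: at least about half of all double zeta values of odd weight
-/

namespace Pool.Agent.MZD

open Finset Filter
open Pool.Agent.Helper21 (mzv H zl Adm tendsto_zl)
open Pool.Agent.MZA Pool.Agent.MZA.MonAux

theorem adm_two (a b : ℕ) (ha : 2 ≤ a) (hb : 1 ≤ b) : Adm [a, b] := ⟨by
    intro c hc
    simp only [List.mem_cons, List.not_mem_nil, or_false] at hc
    omega, by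
    intro c t hc
    have := (List.cons.inj hc).1
    omega⟩

theorem mz_two (a b : ℕ) (ha : 2 ≤ a) (hb : 1 ≤ b) : mz [a, b] = zl [a, b] :=
  main_mzv [a, b] (adm_two a b ha hb)

/-- DZV.  Any finite set of odd integers. -/
theorem thm_Dzv (x : ℝ) (hx : x ≠ 0) (V : Finset ℕ) (hV : ∀ v ∈ V, Odd v ∧ 3 ≤ v) :
    {p : ℕ × ℕ | p.1 ∈ V ∧ p.2 ∈ V ∧ p.1 < p.2 ∧
      IsAlgebraic ℚ ((mz [p.1, p.2 - p.1] + mz [p.2 - p.1, p.1]) / x)}.ncard ≤ 2 * V.card - 3 := by
  refine (Set.ncard_le_ncard ?_ (edg_fin (EE x) V)).trans (edgesV x hx V)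
  rintro ⟨a, N⟩ ⟨ha, hN, haN, halg⟩
  simp only at ha hN haN halg
  show (a, N) ∈ edg (EE x) V
  obtain ⟨ha1, ha3⟩ := hV a ha
  obtain ⟨hN1, hN3⟩ := hV N hN
  have h2 : a + 2 ≤ N := by
    obtain ⟨i, hi⟩ := ha1
    obtain ⟨j, hj⟩ := hN1
    omega
  refine ⟨ha, hN, ha1, hN1, ha3, h2, ?_⟩
  have h3 := stuffle a (N - a) (by omega) (by omega)
  have h4 : a + (N - a) = N := by omega
  rw [h4] at h3
  rw [mz_two a (N - a) (by omega) (by omega), mz_two (N - a) a (by omega) (by omega), ← h3] at halg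
  exact halg

/-- all pairs -/
def PP (M : ℕ) : Set (ℕ × ℕ) :=
  {p | Odd p.1 ∧ 3 ≤ p.1 ∧ Even p.2 ∧ 2 ≤ p.2 ∧ p.1 + p.2 ≤ M}

theorem PP_fin (M : ℕ) : (PP M).Finite := by
  refine ((Finset.range (M + 1) ×ˢ Finset.range (M + 1)).finite_toSet).subset ?_
  rintro ⟨a, b⟩ ⟨_, _, _, _, h⟩
  rw [Finset.mem_coe, Finset.mem_product, Finset.mem_range, Finset.mem_range]
  simp only at h ⊢
  omega

theorem PP_card (M : ℕ) (hM : 1 ≤ M) : ((M - 1) / 2) * ((M - 1) / 2 - 1) ≤ (PP M).ncard * 2 := by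
  set K := (M - 1) / 2 with hK
  have h1 : ((Finset.range K).sigma (fun i => Finset.range i)).card ≤ (PP M).ncard := by
    rw [← Set.ncard_coe_finset]
    refine Set.ncard_le_ncard_of_injOn
      (fun q : (Σ _ : ℕ, ℕ) => (2 * (K - q.1) + 1, 2 * (q.2 + 1))) ?_ ?_ (PP_fin M)
    · rintro ⟨i, j⟩ hq
      rw [Finset.mem_coe, Finset.mem_sigma, Finset.mem_range, Finset.mem_range] at hq
      obtain ⟨hi, hj⟩ := hq
      simp only at hi hj
      show (2 * (K - i) + 1, 2 * (j + 1)) ∈ PP M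
      exact ⟨⟨K - i, rfl⟩, by show 3 ≤ 2 * (K - i) + 1; omega, even_two_mul _,
        by show 2 ≤ 2 * (j + 1); omega, by show 2 * (K - i) + 1 + 2 * (j + 1) ≤ M; omega⟩
    · rintro ⟨i, j⟩ hq ⟨i', j'⟩ hq' h
      rw [Finset.mem_coe, Finset.mem_sigma, Finset.mem_range, Finset.mem_range] at hq hq'
      obtain ⟨hi, hj⟩ := hq
      obtain ⟨hi', hj'⟩ := hq'
      simp only [Prod.mk.injEq] at h hi hj hi' hj'
      obtain ⟨h1, h2⟩ := h
      have e1 : i = i' := by omega
      have e2 : j = j' := by omega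
      rw [e1, e2]
  rw [Finset.card_sigma] at h1
  simp only [Finset.card_range] at h1
  have h2 := Finset.sum_range_id_mul_two K
  calc K * (K - 1) = (∑ i ∈ Finset.range K, i) * 2 := h2.symm
    _ ≤ _ := Nat.mul_le_mul_right 2 h1

/-- the double zeta values of odd weight at most `M` that are not in `A x` -/
def TT (x : ℝ) (M : ℕ) : Set (List ℕ) :=
  {w | w.length = 2 ∧ Odd w.sum ∧ w.sum ≤ M ∧ w ∈ off w.sum x}

theorem TT_fin (x : ℝ) (M : ℕ) : (TT x M).Finite := by
  have h1 : TT x M ⊆ ⋃ N ∈ Finset.Icc 2 M, Idx N := by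
    rintro w ⟨hl, hodd, hM, hw⟩
    rw [Set.mem_iUnion₂]
    refine ⟨w.sum, ?_, hw.1⟩
    rw [Finset.mem_Icc]
    refine ⟨?_, hM⟩
    cases w with
    | nil => simp at hl
    | cons a t =>
      have := hw.1.2.1 a t rfl
      rw [List.sum_cons]
      omega
  refine Set.Finite.subset ?_ h1
  refine Set.Finite.biUnion (Finset.finite_toSet _) fun N hN => ?_
  rw [Finset.mem_coe, Finset.mem_Icc] at hN
  exact (thm_Cnt N hN.1).1

open Classical in
/-- HALF. -/
theorem thm_Half (x : ℝ) (hx : x ≠ 0) (M : ℕ) : (M - 4) * (M - 10) ≤ 8 * (TT x M).ncard := by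
  rcases Nat.lt_or_ge M 10 with hM | hM
  · have : M - 10 = 0 := by omega
    rw [this, mul_zero]
    exact Nat.zero_le _
  set B : Set (ℕ × ℕ) := {p : ℕ × ℕ | (Odd p.1 ∧ 3 ≤ p.1 ∧ Even p.2 ∧ 2 ≤ p.2 ∧ p.1 + p.2 ≤ M) ∧
      IsAlgebraic ℚ (mz [p.1, p.2] / x) ∧ IsAlgebraic ℚ (mz [p.2, p.1] / x)} with hB
  have hBc : B.ncard ≤ M - 4 := thm_Dz x hx M
  have hBP : B ⊆ PP M := fun p hp => hp.1
  have h1 : (PP M \ B).ncard + B.ncard = (PP M).ncard :=
    Set.ncard_sdiff_add_ncard_of_subset hBP (PP_fin M)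
  have h2 : (PP M \ B).ncard ≤ (TT x M).ncard := by
    refine Set.ncard_le_ncard_of_injOn (fun p : ℕ × ℕ =>
      if IsAlgebraic ℚ (mz [p.1, p.2] / x) then [p.2, p.1] else [p.1, p.2]) ?_ ?_ (TT_fin x M)
    · rintro ⟨a, b⟩ ⟨⟨ha, ha3, hb, hb2, hM2⟩, hnB⟩
      simp only at ha ha3 hb hb2 hM2
      show (if IsAlgebraic ℚ (mz [a, b] / x) then [b, a] else [a, b]) ∈ TT x M
      by_cases h : IsAlgebraic ℚ (mz [a, b] / x)
      · rw [if_pos h]
        have h3 : ¬ IsAlgebraic ℚ (mz [b, a] / x) := fun h4 =>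
          hnB ⟨⟨ha, ha3, hb, hb2, hM2⟩, h, h4⟩
        have hs : [b, a].sum = b + a := by simp
        refine ⟨rfl, ?_, ?_, ?_⟩
        · rw [hs]
          exact hb.add_odd ha
        · rw [hs]
          omega
        · have hadm := adm_two b a hb2 (by omega)
          exact ⟨⟨hadm.1, hadm.2, rfl⟩, h3⟩
      · rw [if_neg h]
        have hs : [a, b].sum = a + b := by simp
        refine ⟨rfl, ?_, ?_, ?_⟩
        · rw [hs]
          exact ha.add_even hb
        · rw [hs]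
          omega
        · have hadm := adm_two a b (by omega) (by omega)
          exact ⟨⟨hadm.1, hadm.2, rfl⟩, h⟩
    · rintro ⟨a, b⟩ ⟨⟨ha, _, hb, _, _⟩, _⟩ ⟨a', b'⟩ ⟨⟨ha', _, hb', _, _⟩, _⟩ h
      simp only at ha hb ha' hb' h
      split_ifs at h with h5 h6 h6
      · simp only [List.cons.injEq, and_true] at h
        rw [h.1, h.2]
      · simp only [List.cons.injEq, and_true] at h
        rw [h.1] at hb
        exact absurd hb (Nat.not_even_iff_odd.2 ha')
      · simp only [List.cons.injEq, and_true] at h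
        rw [h.1] at ha
        exact absurd hb' (Nat.not_even_iff_odd.2 ha)
      · simp only [List.cons.injEq, and_true] at h
        rw [h.1, h.2]
  have h3 := PP_card M (by omega)
  set K := (M - 1) / 2 with hK
  have h4 : M - 2 ≤ 2 * K := by omega
  have h5 : (M - 2) * (M - 4) ≤ 4 * (K * (K - 1)) := by
    have h6 : M - 4 ≤ 2 * (K - 1) := by omega
    calc (M - 2) * (M - 4) ≤ (2 * K) * (2 * (K - 1)) := Nat.mul_le_mul h4 h6
      _ = 4 * (K * (K - 1)) := by ring
  have h7 : (M - 4) * (M - 10) + 8 * (M - 4) = (M - 2) * (M - 4) := by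
    obtain ⟨n, rfl⟩ := Nat.exists_eq_add_of_le hM
    have e1 : 10 + n - 4 = n + 6 := by omega
    have e2 : 10 + n - 10 = n := by omega
    have e3 : 10 + n - 2 = n + 8 := by omega
    rw [e1, e2, e3]
    ring
  omega

/-- the number of all indices of length `2` and odd weight at most `M` -/
theorem total (M : ℕ) : {w : List ℕ | w.length = 2 ∧ Odd w.sum ∧ w.sum ≤ M ∧
    w ∈ Idx w.sum}.ncard = ((M - 1) / 2) ^ 2 := by
  set K := (M - 1) / 2 with hK
  have h1 : {w : List ℕ | w.length = 2 ∧ Odd w.sum ∧ w.sum ≤ M ∧ w ∈ Idx w.sum} =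
      (fun q : (Σ _ : ℕ, ℕ) => [q.2 + 2, 2 * q.1 + 1 - q.2]) ''
        (((Finset.range K).sigma (fun i => Finset.range (2 * i + 1)) :
          Finset (Σ _ : ℕ, ℕ)) : Set (Σ _ : ℕ, ℕ)) := by
    ext w
    constructor
    · rintro ⟨hl, hodd, hM, hw⟩
      obtain ⟨a, b, rfl⟩ := List.length_eq_two.1 hl
      have hs : [a, b].sum = a + b := by simp
      rw [hs] at hodd hM
      obtain ⟨n, hn⟩ := hodd
      have ha : 2 ≤ a := hw.2.1 a [b] rfl
      have hb : 1 ≤ b := hw.1 b (by simp)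
      refine ⟨⟨n - 1, a - 2⟩, ?_, ?_⟩
      · rw [Finset.mem_coe, Finset.mem_sigma, Finset.mem_range, Finset.mem_range]
        refine ⟨?_, ?_⟩
        · show n - 1 < K
          omega
        · show a - 2 < 2 * (n - 1) + 1
          omega
      · show [a - 2 + 2, 2 * (n - 1) + 1 - (a - 2)] = [a, b]
        have e1 : a - 2 + 2 = a := by omega
        have e2 : 2 * (n - 1) + 1 - (a - 2) = b := by omega
        rw [e1, e2]
    · rintro ⟨⟨n, i⟩, hq, rfl⟩
      rw [Finset.mem_coe, Finset.mem_sigma, Finset.mem_range, Finset.mem_range] at hq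
      obtain ⟨hn, hi⟩ := hq
      simp only at hn hi
      have hs : [i + 2, 2 * n + 1 - i].sum = 2 * (n + 1) + 1 := by
        simp only [List.sum_cons, List.sum_nil]
        omega
      refine ⟨rfl, ?_, ?_, ?_⟩
      · show Odd [i + 2, 2 * n + 1 - i].sum
        rw [hs]
        exact ⟨n + 1, rfl⟩
      · show [i + 2, 2 * n + 1 - i].sum ≤ M
        rw [hs]
        omega
      · have hadm := adm_two (i + 2) (2 * n + 1 - i) (by omega) (by omega)
        exact ⟨hadm.1, hadm.2, rfl⟩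
  rw [h1, Set.InjOn.ncard_image, Set.ncard_coe_finset, Finset.card_sigma]
  · simp only [Finset.card_range]
    clear h1 hK
    induction K with
    | zero => rfl
    | succ k ih =>
      rw [Finset.sum_range_succ, ih]
      ring
  · rintro ⟨n, i⟩ hq ⟨n', i'⟩ hq' h
    rw [Finset.mem_coe, Finset.mem_sigma, Finset.mem_range, Finset.mem_range] at hq hq'
    obtain ⟨hn, hi⟩ := hq
    obtain ⟨hn', hi'⟩ := hq'
    simp only [List.cons.injEq, and_true] at h hn hi hn' hi'
    obtain ⟨h1, h2⟩ := h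
    have e1 : i = i' := by omega
    have e2 : n = n' := by omega
    rw [e1, e2]

end Pool.Agent.MZD
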